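import Mathlib
import Pool.Agent.H254Z.HD.Cell

/-!
# MP_731221_co, Q1: the big chromatic number of the translates of a half-disk is 2
-/

set_option autoImplicit false

namespace Pool.Agent.Results.MP_731221_co.ATranslatesTwo

/-- The closed upper half-disk `x ^ 2 + y ^ 2 ≤ 1`, `y ≥ 0`. -/
def halfDisk : Set (ℝ × ℝ) := {p | p.1 ^ 2 + p.2 ^ 2 ≤ 1 ∧ 0 ≤ p.2}

/-- The family of all translates `D + v` of the half-disk. -/
def translates : Set (Set (ℝ × ℝ)) := {F | ∃ v : ℝ × ℝ, F = (fun p => p + v) '' halfDisk}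

/-- For some `m ≥ 1`, every finite point set `P` has a colouring with `k` colours such that every
edge `P ∩ F`, `F ∈ 𝓕`, with at least `m` points (and at least two points) contains two points of
different colours. -/
def BigColourable (𝓕 : Set (Set (ℝ × ℝ))) (k : ℕ) : Prop :=
  ∃ m : ℕ, 1 ≤ m ∧ ∀ P : Finset (ℝ × ℝ), ∃ c : P → Fin k, ∀ F ∈ 𝓕,
    m ≤ ((P : Set (ℝ × ℝ)) ∩ F).ncard → 2 ≤ ((P : Set (ℝ × ℝ)) ∩ F).ncard →
      ∃ p q : P, p.1 ∈ F ∧ q.1 ∈ F ∧ c p ≠ c q

/-- The big chromatic number of the translates of a half-disk is exactly `2`. -/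
theorem result : IsLeast {k : ℕ | BigColourable translates k} 2 := by
  classical
  constructor
  · refine ⟨2574000, by norm_num, fun P => ?_⟩
    obtain ⟨c, hc⟩ := Pool.Agent.H254Z.HD.plane_colour P
    refine ⟨fun p => c p.1, ?_⟩
    rintro F ⟨v, rfl⟩ hm -
    have hmem : ∀ p : ℝ × ℝ, p ∈ (fun p => p + v) '' halfDisk ↔
        v.2 ≤ p.2 ∧ (p.1 - v.1) ^ 2 + (p.2 - v.2) ^ 2 ≤ 1 := by
      intro p
      constructor
      · rintro ⟨q, ⟨q1, q2⟩, rfl⟩
        simp only [Prod.fst_add, Prod.snd_add, add_sub_cancel_right]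
        exact ⟨by linarith, q1⟩
      · rintro ⟨h1, h2⟩
        exact ⟨p - v, ⟨h2, by simpa using h1⟩, by simp⟩
    have hset : (P : Set (ℝ × ℝ)) ∩ (fun p => p + v) '' halfDisk =
        ↑(P.filter (fun p => p ∈ (fun p => p + v) '' halfDisk)) := by
      ext p
      simp only [Set.mem_inter_iff, Finset.mem_coe, Finset.mem_filter]
    rw [hset, Set.ncard_coe_finset] at hm
    obtain ⟨p, hp, q, hq, h⟩ := hc v.1 v.2 _ (fun p => by rw [Finset.mem_filter, hmem]) hm
    obtain ⟨p1, p2⟩ := Finset.mem_filter.1 hp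
    obtain ⟨q1, q2⟩ := Finset.mem_filter.1 hq
    exact ⟨⟨p, p1⟩, ⟨q, q1⟩, p2, q2, h⟩
  · rintro k ⟨m, -, h⟩
    by_contra hk
    let e : ℕ → ℝ × ℝ := fun i => ((i : ℝ) / (m + 2), 0)
    have hpos : (0 : ℝ) < m + 2 := by positivity
    have he : Function.Injective e := by
      intro i j hij
      have h1 : (i : ℝ) / (m + 2) = (j : ℝ) / (m + 2) := congrArg Prod.fst hij
      exact_mod_cast (div_left_inj' hpos.ne').1 h1
    obtain ⟨c, hc⟩ := h ((Finset.range (m + 2)).image e)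
    have hset : (((Finset.range (m + 2)).image e : Finset (ℝ × ℝ)) : Set (ℝ × ℝ)) ∩
        (fun p => p + (0 : ℝ × ℝ)) '' halfDisk = ↑((Finset.range (m + 2)).image e) := by
      refine Set.inter_eq_left.2 fun p hp => ⟨p, ?_, by simp⟩
      obtain ⟨i, hi, rfl⟩ := Finset.mem_image.1 (Finset.mem_coe.1 hp)
      have h1 : (i : ℝ) < m + 2 := by exact_mod_cast Finset.mem_range.1 hi
      have h2 : (i : ℝ) / (m + 2) ≤ 1 := (div_le_one hpos).2 h1.le
      have h3 : 0 ≤ (i : ℝ) / (m + 2) := by positivity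
      refine ⟨?_, le_rfl⟩
      show ((i : ℝ) / (m + 2)) ^ 2 + (0 : ℝ) ^ 2 ≤ 1
      nlinarith
    have hcard : ((((Finset.range (m + 2)).image e : Finset (ℝ × ℝ)) : Set (ℝ × ℝ)) ∩
        (fun p => p + (0 : ℝ × ℝ)) '' halfDisk).ncard = m + 2 := by
      rw [hset, Set.ncard_coe_finset, Finset.card_image_of_injective _ he, Finset.card_range]
    obtain ⟨p, q, -, -, hpq⟩ := hc _ ⟨0, rfl⟩ (by omega) (by omega)
    apply hpq
    apply Fin.ext
    have := (c p).2
    have := (c q).2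
    omega

end Pool.Agent.Results.MP_731221_co.ATranslatesTwo
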